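import Pool.Agent.N658.TP.Stm5

/-! # The partition function when there are few eigenvalues -/

set_option autoImplicit false

open scoped BigOperators ComplexConjugate Classical InnerProductSpace Matrix ComplexOrder
open scoped Matrix.Norms.L2Operator

noncomputable section

namespace Pool.Agent.N75.TP

open Pool.Agent.Y738.PE Pool.Agent.N658.TP

theorem core {ι : Type*} [Fintype ι] (x : ι → ℝ) (hx : ∀ i, 0 ≤ x i) {Lr c β : ℝ} (hL : 1 ≤ Lr)
    (hc : 0 ≤ c)
    (hcnt : ∀ M : ℕ, (((Finset.univ.filter fun i => x i ≤ (M : ℝ)).card : ℕ) : ℝ) ≤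
      Lr ^ (c * ((M : ℝ) + 1)))
    (hβ : c * Real.log Lr + 1 ≤ β) : ∑ i, Real.exp (-(β * x i)) ≤ 2 * Lr ^ (2 * c) := by
  have hlog : 0 ≤ Real.log Lr := Real.log_nonneg hL
  have hβ1 : 1 ≤ β := by
    have := mul_nonneg hc hlog
    linarith
  have hL0 : 0 < Lr := by linarith
  set N : ℕ := (Finset.univ.sup fun i => ⌊x i⌋₊) + 1 with hN
  have h1 : ∀ i ∈ (Finset.univ : Finset ι), ⌊x i⌋₊ ∈ Finset.range N := by
    intro i _
    rw [Finset.mem_range, hN]
    have := Finset.le_sup (f := fun i => ⌊x i⌋₊) (Finset.mem_univ i)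
    exact Nat.lt_succ_of_le this
  rw [← Finset.sum_fiberwise_of_maps_to h1]
  have h2 : ∀ M ∈ Finset.range N,
      ∑ i ∈ Finset.univ.filter (fun i => ⌊x i⌋₊ = M), Real.exp (-(β * x i)) ≤
        Lr ^ (2 * c) * (1 / 2) ^ M := by
    intro M _
    have h3 : ∀ i ∈ Finset.univ.filter (fun i => ⌊x i⌋₊ = M),
        Real.exp (-(β * x i)) ≤ Real.exp (-(β * M)) := by
      intro i hi
      have h4 := (Finset.mem_filter.1 hi).2
      apply Real.exp_le_exp.2
      have h5 : (M : ℝ) ≤ x i := by
        rw [← h4]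
        exact Nat.floor_le (hx i)
      have := mul_le_mul_of_nonneg_left h5 (by linarith : 0 ≤ β)
      linarith
    have h4 : ((Finset.univ.filter (fun i => ⌊x i⌋₊ = M)).card : ℝ) ≤ Lr ^ (c * ((M : ℝ) + 2)) := by
      have h5 : (Finset.univ.filter (fun i => ⌊x i⌋₊ = M)).card ≤
          (Finset.univ.filter fun i => x i ≤ ((M + 1 : ℕ) : ℝ)).card := by
        apply Finset.card_le_card
        intro i hi
        have h6 := (Finset.mem_filter.1 hi).2
        refine Finset.mem_filter.2 ⟨Finset.mem_univ i, ?_⟩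
        have h7 := Nat.lt_floor_add_one (x i)
        rw [h6] at h7
        push_cast
        exact h7.le
      have h6 := hcnt (M + 1)
      have h7 : (((Finset.univ.filter (fun i => ⌊x i⌋₊ = M)).card : ℕ) : ℝ) ≤
          (((Finset.univ.filter fun i => x i ≤ ((M + 1 : ℕ) : ℝ)).card : ℕ) : ℝ) := by
        exact_mod_cast h5
      refine (h7.trans h6).trans (le_of_eq ?_)
      congr 1
      push_cast
      ring
    calc ∑ i ∈ Finset.univ.filter (fun i => ⌊x i⌋₊ = M), Real.exp (-(β * x i))
        ≤ ∑ i ∈ Finset.univ.filter (fun i => ⌊x i⌋₊ = M), Real.exp (-(β * M)) :=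
          Finset.sum_le_sum h3
      _ = ((Finset.univ.filter (fun i => ⌊x i⌋₊ = M)).card : ℝ) * Real.exp (-(β * M)) := by
          rw [Finset.sum_const, nsmul_eq_mul]
      _ ≤ Lr ^ (c * ((M : ℝ) + 2)) * Real.exp (-(β * M)) :=
          mul_le_mul_of_nonneg_right h4 (Real.exp_pos _).le
      _ = Lr ^ (2 * c) * Real.exp (-((β - c * Real.log Lr) * M)) := by
          rw [Real.rpow_def_of_pos hL0, Real.rpow_def_of_pos hL0, ← Real.exp_add, ← Real.exp_add]
          congr 1
          ring
      _ ≤ Lr ^ (2 * c) * (1 / 2) ^ M := by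
          refine mul_le_mul_of_nonneg_left ?_ (by positivity)
          have h5 : Real.exp (-((β - c * Real.log Lr) * M)) ≤ Real.exp (-(M : ℝ)) := by
            apply Real.exp_le_exp.2
            have h6 : (0 : ℝ) ≤ M := Nat.cast_nonneg M
            nlinarith
          refine h5.trans ?_
          have h6 : Real.exp (-(M : ℝ)) = Real.exp (-1) ^ M := by
            rw [← Real.exp_nat_mul]
            congr 1
            ring
          rw [h6]
          refine pow_le_pow_left₀ (Real.exp_pos _).le ?_ M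
          rw [Real.exp_neg, one_div]
          refine inv_anti₀ (by norm_num) ?_
          have := Real.add_one_le_exp (1 : ℝ)
          linarith
  calc ∑ M ∈ Finset.range N, ∑ i ∈ Finset.univ.filter (fun i => ⌊x i⌋₊ = M),
        Real.exp (-(β * x i)) ≤ ∑ M ∈ Finset.range N, Lr ^ (2 * c) * (1 / 2) ^ M :=
        Finset.sum_le_sum h2
    _ = Lr ^ (2 * c) * ∑ M ∈ Finset.range N, (1 / 2 : ℝ) ^ M := by rw [Finset.mul_sum]
    _ ≤ Lr ^ (2 * c) * 2 := mul_le_mul_of_nonneg_left (sum_geometric_two_le N) (by positivity)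
    _ = 2 * Lr ^ (2 * c) := by ring

theorem partCnt : Pool.Agent.N658.TP.Sp.StmPartCnt := by
  intro d q L _ h c hc hcnt β hβ
  have hL : (1 : ℝ) ≤ L := by
    exact_mod_cast NeZero.one_le
  unfold Pool.Agent.N658.TP.Sp.part
  split_ifs with hH
  · refine core (fun i => hH.eigenvalues i - Pool.Agent.N658.TP.Sp.gs h L) ?_ hL hc ?_ hβ
    · intro i
      unfold Pool.Agent.N658.TP.Sp.gs
      rw [dif_pos hH]
      exact sub_nonneg.2 (ciInf_le (Set.finite_range _).bddBelow i)
    · intro M
      have h1 := hcnt M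
      unfold Pool.Agent.N658.TP.Sp.cnt at h1
      rw [dif_pos hH] at h1
      refine le_trans (le_of_eq ?_) h1
      congr 2
      ext i
      simp only [Finset.mem_filter, Finset.mem_univ, true_and]
      exact sub_le_iff_le_add'
  · positivity

end Pool.Agent.N75.TP
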